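import Mathlib
import Pool.Agent.H2.Kneser

/-!
# Sums of two elements of a large set of residues that meets many classes
-/

set_option autoImplicit false

open Finset Pointwise

namespace Pool.Agent.H7SR

open Pool.Agent.H2.Kneser

variable {M : ℕ} [NeZero M]

theorem nsmul_of_mem {H : Finset (ZMod M)} (hH : Sg H) {x : ZMod M} (hx : x ∈ H) : H.card • x = 0 := by
  let K : AddSubgroup (ZMod M) :=
    { carrier := H
      zero_mem' := hH.zero
      add_mem' := fun ha hb => hH.add ha hb
      neg_mem' := fun ha => hH.neg ha }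
  have h1 : Nat.card K = H.card := by
    have : (K : Set (ZMod M)) = (H : Set (ZMod M)) := rfl
    rw [← Nat.card_eq_finsetCard H]
    rfl
  have h2 : Nat.card K • (⟨x, hx⟩ : K) = 0 := card_nsmul_eq_zero'
  rw [h1] at h2
  exact congrArg (fun y : K => (y : ZMod M)) h2

theorem mem_iff {H : Finset (ZMod M)} (hH : Sg H) {x : ZMod M} (hx : H.card • x = 0) : x ∈ H := by
  have h1 : H ⊆ univ.filter (fun y : ZMod M => H.card • y = 0) := by
    intro y hy
    exact mem_filter.2 ⟨mem_univ _, nsmul_of_mem hH hy⟩
  have h2 : (univ.filter (fun y : ZMod M => H.card • y = 0)).card ≤ H.card :=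
    IsAddCyclic.card_nsmul_eq_zero_le hH.pos
  rw [eq_of_subset_of_card_le h1 h2]
  exact mem_filter.2 ⟨mem_univ _, hx⟩

theorem card_dvd {H : Finset (ZMod M)} (hH : Sg H) : H.card ∣ M := by
  have h := Per.card_dvd (K := H) (X := (univ : Finset (ZMod M))) hH (fun _ _ _ _ => mem_univ _)
  rwa [Finset.card_univ, ZMod.card] at h

/-- the classes modulo `h` of the elements of `A` -/
def cls (h : ℕ) (A : Finset (ZMod M)) : Finset ℕ := A.image (fun a => a.val % h)

theorem cls_le {H : Finset (ZMod M)} (hH : Sg H) (A : Finset (ZMod M)) :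
    (cls (M / H.card) A).card * H.card ≤ (A + H).card := by
  obtain ⟨h, hh⟩ := card_dvd hH
  have hHp : 0 < H.card := hH.pos
  have hM : M ≠ 0 := NeZero.ne M
  have hdiv : M / H.card = h := Nat.div_eq_of_eq_mul_right hHp hh
  have hhp : 0 < h := by
    rcases Nat.eq_zero_or_pos h with h0 | h0
    · rw [h0] at hh
      omega
    · exact h0
  rw [hdiv]
  have hmem : ∀ k : ℕ, ((h * k : ℕ) : ZMod M) ∈ H := by
    intro k
    apply mem_iff hH
    rw [nsmul_eq_mul, ← Nat.cast_mul, ← mul_assoc, ← hh, Nat.cast_mul, ZMod.natCast_self, zero_mul]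
  have hcard : (cls h A ×ˢ range H.card).card = (cls h A).card * H.card := by
    rw [card_product, card_range]
  rw [← hcard]
  apply card_le_card_of_injOn (fun q : ℕ × ℕ => ((q.1 + h * q.2 : ℕ) : ZMod M))
  · intro q hq
    obtain ⟨h1, h2⟩ := mem_product.1 (mem_coe.1 hq)
    obtain ⟨a, ha, hae⟩ := mem_image.1 h1
    have h3 : ((a.val : ℕ) : ZMod M) = a := ZMod.natCast_zmod_val a
    have h4 : a.val = q.1 + h * (a.val / h) := by
      have h9 := Nat.mod_add_div a.val h
      have h10 : a.val % h = q.1 := hae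
      rw [h10] at h9
      exact h9.symm
    have h5 : ((q.1 + h * q.2 : ℕ) : ZMod M) =
        a + (((h * q.2 : ℕ) : ZMod M) - ((h * (a.val / h) : ℕ) : ZMod M)) := by
      have h6 : a = ((q.1 + h * (a.val / h) : ℕ) : ZMod M) := by
        rw [← h4, h3]
      conv_rhs => rw [h6]
      have h7 : (((q.1 + h * (a.val / h) : ℕ) : ZMod M)).val = a.val := by rw [← h6]
      rw [h7]
      push_cast
      ring
    show ((q.1 + h * q.2 : ℕ) : ZMod M) ∈ ((A + H : Finset (ZMod M)) : Set (ZMod M))
    rw [h5]
    exact mem_coe.2 (add_mem_add ha (hH.sub _ (hmem _) _ (hmem _)))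
  · intro q hq r hr he
    obtain ⟨h1, h2⟩ := mem_product.1 (mem_coe.1 hq)
    obtain ⟨h1', h2'⟩ := mem_product.1 (mem_coe.1 hr)
    have hb : ∀ s : ℕ × ℕ, s.1 ∈ cls h A → s.2 ∈ range H.card → s.1 < h ∧ s.1 + h * s.2 < M := by
      intro s hs1 hs2
      obtain ⟨a, ha, hae⟩ := mem_image.1 hs1
      have h3 : s.1 < h := by
        rw [← hae]
        exact Nat.mod_lt _ hhp
      refine ⟨h3, ?_⟩
      have h4 : s.2 + 1 ≤ H.card := mem_range.1 hs2
      calc s.1 + h * s.2 < h + h * s.2 := by omega
        _ = h * (s.2 + 1) := by ring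
        _ ≤ h * H.card := Nat.mul_le_mul_left _ h4
        _ = M := (mul_comm _ _).trans hh.symm
    obtain ⟨q1, q2⟩ := hb q h1 h2
    obtain ⟨r1, r2⟩ := hb r h1' h2'
    have h3 := congrArg ZMod.val he
    simp only at h3
    rw [ZMod.val_cast_of_lt q2, ZMod.val_cast_of_lt r2] at h3
    have h4 : q.1 = r.1 := by
      have h5 := congrArg (fun t => t % h) h3
      simp only [Nat.add_mul_mod_self_left] at h5
      rwa [Nat.mod_eq_of_lt q1, Nat.mod_eq_of_lt r1] at h5
    have h5 : q.2 = r.2 := by
      rw [h4] at h3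
      have h6 : h * q.2 = h * r.2 := by omega
      exact Nat.eq_of_mul_eq_mul_left hhp h6
    exact Prod.ext h4 h5

/-- consequence of Kneser's theorem for sums and differences -/
theorem sums {A B : Finset (ZMod M)} (hA : A.Nonempty) (hB : B = A ∨ B = -A) (X : ℝ) (hX : 0 < X)
    (hc : ∀ h : ℕ, h ∣ M → (h : ℝ) ≤ X → h + 1 ≤ 2 * (cls h A).card) :
    (A + B).card = M ∨ (M : ℝ) - (A + B).card ≤ M - 2 * A.card + M / X := by
  have hBn : B.Nonempty := by
    rcases hB with rfl | rfl
    · exact hA
    · exact hA.neg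
  set H := st (A + B) with hH
  have s : Sg H := sg_st _
  have kn : (A + H).card + (B + H).card ≤ (A + B).card + H.card := kneser hA hBn
  have hBH : (B + H).card = (A + H).card := by
    rcases hB with rfl | rfl
    · rfl
    · have h1 : -A + H = -(A + H) := by
        have h2 : -H = H := by
          ext x
          rw [mem_neg']
          constructor
          · intro hx
            simpa using s.neg hx
          · intro hx
            exact s.neg hx
        rw [neg_add, h2]
      rw [h1, card_neg]
  rw [hBH] at kn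
  have hcl := cls_le s A
  have hdv := card_dvd s
  have hM0 : 0 < M := Nat.pos_of_ne_zero (NeZero.ne M)
  have hle : (A + B).card ≤ M := by
    have := card_le_univ (A + B)
    rwa [ZMod.card] at this
  obtain ⟨h, hh⟩ := hdv
  have hHp : 0 < H.card := s.pos
  have hdiv : M / H.card = h := Nat.div_eq_of_eq_mul_right hHp hh
  rw [hdiv] at hcl
  have hhp : 0 < h := by
    rcases Nat.eq_zero_or_pos h with h0 | h0
    · rw [h0] at hh
      omega
    · exact h0
  rcases le_or_gt (h : ℝ) X with hx | hx
  · left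
    have h1 := hc h ⟨H.card, hh.trans (mul_comm _ _)⟩ hx
    have h2 : (h + 1) * H.card ≤ 2 * (cls h A).card * H.card := Nat.mul_le_mul_right _ h1
    have h3 : (h + 1) * H.card = M + H.card := by
      have : M = H.card * h := hh
      nlinarith
    nlinarith
  · right
    have h1 : A.card ≤ (A + H).card := card_le_card (s.subset_add A)
    have h2 : ((A.card : ℕ) : ℝ) ≤ (A + H).card := by exact_mod_cast h1
    have h3 : (((A + H).card : ℕ) : ℝ) + (A + H).card ≤ (A + B).card + H.card := by exact_mod_cast kn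
    have h4 : (H.card : ℝ) ≤ M / X := by
      rw [le_div_iff₀ hX]
      have h5 : (M : ℝ) = H.card * h := by exact_mod_cast hh
      rw [h5]
      exact mul_le_mul_of_nonneg_left hx.le (Nat.cast_nonneg _)
    linarith

end Pool.Agent.H7SR
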