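import Mathlib
import Pool.Agent.N840.RC.Fin
import Pool.Agent.H7SR.Core

/-!
# The classes met by the regular indices
-/

set_option autoImplicit false

open Finset Pool.Agent.N840.RC

namespace Pool.Agent.H7SR

/-- the classes modulo `(p - 1) / 2` of the regular indices -/
noncomputable def Rg (p : ℕ) : Finset (ZMod ((p - 1) / 2)) :=
  (reg p 1 0).image (fun i : ℕ => (i : ZMod ((p - 1) / 2)))

theorem mem_reg {p h j i : ℕ} : i ∈ reg p h j ↔
    (1 ≤ i ∧ i ≤ (p - 3) / 2) ∧ i % h = j ∧ ¬ (p : ℤ) ∣ (bernoulli (2 * i)).num := by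
  unfold reg
  rw [mem_filter, mem_Icc]

theorem val_reg {p h j i : ℕ} (hp : 5 ≤ p) (hi : i ∈ reg p h j) :
    ((i : ℕ) : ZMod ((p - 1) / 2)).val = i := by
  obtain ⟨⟨h1, h2⟩, -⟩ := mem_reg.1 hi
  exact ZMod.val_cast_of_lt (by omega)

theorem card_Rg {p : ℕ} (hp : 5 ≤ p) : (Rg p).card = (reg p 1 0).card := by
  unfold Rg
  apply card_image_of_injOn
  intro i hi j hj he
  have h1 := congrArg ZMod.val he
  simp only at h1
  rwa [val_reg hp (mem_coe.1 hi), val_reg hp (mem_coe.1 hj)] at h1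

/-- the classes modulo `h` not met by the regular indices outside `E` -/
theorem missed {p : ℕ} (hp : 5 ≤ p) (h n : ℕ) (hh : h ∣ (p - 1) / 2)
    (E : Finset (ZMod ((p - 1) / 2))) :
    (h - (cls h (Rg p \ E)).card) * n ≤
      (∑ j ∈ range h, (n - ((reg p h j).card + if j = 0 then 1 else 0))) + E.card +
        (h - (cls h (Rg p \ E)).card) := by
  classical
  have hM : 0 < (p - 1) / 2 := by omega
  have : NeZero ((p - 1) / 2) := ⟨by omega⟩
  have hh0 : 0 < h := Nat.pos_of_dvd_of_pos hh hM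
  set J := cls h (Rg p \ E) with hJ
  have hJs : J ⊆ range h := by
    intro j hj
    obtain ⟨a, -, ha⟩ := mem_image.1 hj
    rw [mem_range, ← ha]
    exact Nat.mod_lt _ hh0
  set J' := range h \ J with hJ'
  have hc : J'.card = h - J.card := by
    rw [hJ', card_sdiff_of_subset hJs, card_range]
  rw [← hc]
  have h1 : ∀ j ∈ J', (reg p h j).card ≤ (E.filter (fun e => e.val % h = j)).card := by
    intro j hj
    rw [hJ', mem_sdiff] at hj
    apply card_le_card_of_injOn (fun i : ℕ => (i : ZMod ((p - 1) / 2)))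
    · intro i hi
      have hi' := mem_coe.1 hi
      have hv := val_reg hp hi'
      obtain ⟨h2, h3, h4⟩ := mem_reg.1 hi'
      rw [mem_coe, mem_filter]
      refine ⟨?_, by rw [hv]; exact h3⟩
      by_contra hE
      apply hj.2
      rw [hJ]
      refine mem_image.2 ⟨(i : ZMod ((p - 1) / 2)), ?_, by rw [hv]; exact h3⟩
      rw [mem_sdiff]
      refine ⟨mem_image.2 ⟨i, mem_reg.2 ⟨h2, Nat.mod_one i, h4⟩, rfl⟩, hE⟩
    · intro i hi k hk he
      have h5 := congrArg ZMod.val he
      simp only at h5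
      rwa [val_reg hp (mem_coe.1 hi), val_reg hp (mem_coe.1 hk)] at h5
  have h2 : ∑ j ∈ range h, (E.filter (fun e => e.val % h = j)).card = E.card := by
    rw [← card_eq_sum_card_fiberwise]
    intro e _
    exact mem_coe.2 (mem_range.2 (Nat.mod_lt _ hh0))
  have h3 : ∑ j ∈ J', (E.filter (fun e => e.val % h = j)).card ≤ E.card := by
    rw [← h2]
    exact sum_le_sum_of_subset sdiff_subset
  have h4 : ∑ j ∈ J', (n - ((reg p h j).card + if j = 0 then 1 else 0)) ≤
      ∑ j ∈ range h, (n - ((reg p h j).card + if j = 0 then 1 else 0)) :=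
    sum_le_sum_of_subset sdiff_subset
  calc J'.card * n = ∑ j ∈ J', n := by rw [sum_const, smul_eq_mul]
    _ ≤ ∑ j ∈ J', ((n - ((reg p h j).card + if j = 0 then 1 else 0)) +
        (E.filter (fun e => e.val % h = j)).card + 1) := by
        apply sum_le_sum
        intro j hj
        have := h1 j hj
        split_ifs <;> omega
    _ = (∑ j ∈ J', (n - ((reg p h j).card + if j = 0 then 1 else 0))) +
        (∑ j ∈ J', (E.filter (fun e => e.val % h = j)).card) + J'.card := by
        rw [sum_add_distrib, sum_add_distrib, sum_const, smul_eq_mul, mul_one]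
    _ ≤ _ := by omega

/-- the regular indices outside a small set meet more than half of the classes modulo `h` -/
theorem many {ε : ℝ} (hε : 0 < ε) (hε1 : ε ≤ 1) : ∃ P : ℕ, ∀ p : ℕ, P ≤ p → p.Prime →
    ∀ E : Finset (ZMod ((p - 1) / 2)), (E.card : ℝ) ≤ (p : ℝ) ^ (1 - ε) →
    ∀ h : ℕ, h ∣ (p - 1) / 2 → (h : ℝ) ≤ (p : ℝ) ^ (1 - ε / 2) / (4 / ε + 1) →
      h + 1 ≤ 2 * (cls h (Rg p \ E)).card := by
  obtain ⟨P0, hP0⟩ := asym (ε / 16) (by positivity)
  have hev : ∀ᶠ p : ℕ in Filter.atTop, (20 / ε) ≤ (p : ℝ) ^ (ε / 2) :=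
    ((tendsto_rpow_atTop (by positivity : 0 < ε / 2)).comp
      tendsto_natCast_atTop_atTop).eventually_ge_atTop _
  obtain ⟨P1, hP1⟩ := Filter.eventually_atTop.1 hev
  refine ⟨max (max P0 P1) 7, ?_⟩
  intro p hp hpp E hE h hh hhX
  have hp0 : P0 ≤ p := le_trans (le_trans (le_max_left _ _) (le_max_left _ _)) hp
  have hp1 : P1 ≤ p := le_trans (le_trans (le_max_right _ _) (le_max_left _ _)) hp
  have hp7 : 7 ≤ p := le_trans (le_max_right _ _) hp
  have hbig : 20 / ε ≤ (p : ℝ) ^ (ε / 2) := hP1 p hp1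
  have hpr : (7 : ℝ) ≤ p := by exact_mod_cast hp7
  have hppos : (0 : ℝ) < p := by linarith
  have hM : 0 < (p - 1) / 2 := by omega
  have hh0 : 0 < h := Nat.pos_of_dvd_of_pos hh hM
  have hhr : (0 : ℝ) < h := by exact_mod_cast hh0
  set Q : ℝ := (p : ℝ) ^ (1 - ε / 2) with hQ
  have hQpos : 0 < Q := Real.rpow_pos_of_pos hppos _
  have h4e : 4 ≤ 4 / ε := by
    rw [le_div_iff₀ hε]
    linarith
  have hden : 0 < 4 / ε + 1 := by linarith
  have hhQ : (h : ℝ) * (4 / ε + 1) ≤ Q := (le_div_iff₀ hden).1 hhX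
  set n : ℕ := ⌊Q / h⌋₊ with hn
  have hn1 : (n : ℝ) ≤ Q / h := Nat.floor_le (by positivity)
  have hn2 : Q / h < n + 1 := Nat.lt_floor_add_one _
  have hnQ : (n : ℝ) * h ≤ Q := (le_div_iff₀ hhr).1 hn1
  have hnQ2 : Q < (n + 1) * h := (div_lt_iff₀ hhr).1 hn2
  have hn4 : 4 / ε < n := by
    have h1 : 4 / ε + 1 ≤ Q / h := by
      rw [le_div_iff₀ hhr]
      linarith
    linarith
  have hnpos : (0 : ℝ) < n := by linarith
  have hnn : 1 ≤ n := by
    have : (0 : ℝ) < (n : ℝ) := hnpos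
    exact_mod_cast this
  have hh5 : (h : ℝ) * 5 ≤ Q := by nlinarith
  have hnh : 4 / 5 * Q ≤ n * h := by nlinarith
  -- Q ≤ M
  have hQp : Q * (20 / ε) ≤ p := by
    calc Q * (20 / ε) ≤ Q * (p : ℝ) ^ (ε / 2) := mul_le_mul_of_nonneg_left hbig hQpos.le
      _ = (p : ℝ) ^ (1 - ε / 2 + ε / 2) := by rw [hQ, Real.rpow_add hppos]
      _ = p := by rw [sub_add_cancel, Real.rpow_one]
  have h20 : 20 ≤ 20 / ε := by
    rw [le_div_iff₀ hε]
    linarith
  have hQ3 : Q * 20 ≤ p := le_trans (mul_le_mul_of_nonneg_left h20 hQpos.le) hQp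
  have hnM : n * h ≤ (p - 1) / 2 := by
    have h1 : ((n * h : ℕ) : ℝ) * 20 ≤ p := by
      push_cast
      nlinarith
    have h2 : n * h * 20 ≤ p := by exact_mod_cast h1
    omega
  have has := hP0 p hp0 hpp h n hh hnn hnM
  have hmi := missed (p := p) (by omega) h n hh E
  set c' := h - (cls h (Rg p \ E)).card with hc'
  set S := ∑ j ∈ range h, (n - ((reg p h j).card + if j = 0 then 1 else 0)) with hS
  have hlog : Real.log ((n * h : ℕ) : ℝ) ≤ (1 - ε / 2) * Real.log p := by
    rw [← Real.log_rpow hppos]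
    apply Real.log_le_log
    · push_cast
      positivity
    · push_cast
      exact hnQ
  have hlp : 0 < Real.log p := Real.log_pos (by linarith)
  have hfr : Real.log ((n * h : ℕ) : ℝ) / (2 * Real.log p) ≤ (1 - ε / 2) / 2 := by
    rw [div_le_div_iff₀ (by positivity) (by norm_num)]
    nlinarith
  have hnhpos : (0 : ℝ) < n * h := by positivity
  have hSr : (S : ℝ) ≤ ((1 - ε / 2) / 2 + ε / 16) * (n * h) := by
    refine le_trans has ?_
    push_cast at hfr ⊢
    exact mul_le_mul_of_nonneg_right (by linarith) hnhpos.le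
  have hEr : (E.card : ℝ) ≤ ε / 16 * (n * h) := by
    have h1 : (p : ℝ) ^ (1 - ε) * (p : ℝ) ^ (ε / 2) = Q := by
      rw [← Real.rpow_add hppos, hQ]
      congr 1
      ring
    have h2 : (p : ℝ) ^ (1 - ε) * (20 / ε) ≤ Q := by
      rw [← h1]
      exact mul_le_mul_of_nonneg_left hbig (Real.rpow_nonneg hppos.le _)
    have h3 : (p : ℝ) ^ (1 - ε) ≤ Q * ε / 20 := by
      rw [← mul_div_assoc, div_le_iff₀ hε] at h2
      linarith
    nlinarith
  have hmr : (c' : ℝ) * n ≤ S + E.card + c' := by exact_mod_cast hmi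
  by_contra hcon
  push Not at hcon
  have hc2 : h ≤ 2 * c' := by omega
  have hc2r : (h : ℝ) ≤ 2 * c' := by exact_mod_cast hc2
  have h1 : (c' : ℝ) * (n - 1) ≤ (1 / 2 - ε / 8) * (n * h) := by nlinarith
  have h2 : (1 : ℝ) ≤ n := by exact_mod_cast hnn
  have h3 : (h : ℝ) * (n - 1) ≤ 2 * ((c' : ℝ) * (n - 1)) := by nlinarith
  have h4 : (h : ℝ) * (n - 1) ≤ (1 - ε / 4) * (n * h) := by linarith
  have h5 : (h : ℝ) * (ε / 4 * n) ≤ h * 1 := by nlinarith
  have h6 : ε / 4 * n ≤ 1 := le_of_mul_le_mul_left h5 hhr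
  have h7 : (n : ℝ) ≤ 4 / ε := by
    rw [le_div_iff₀ hε]
    linarith
  linarith

/-- the number of regular indices -/
theorem total {p : ℕ} (hpp : p.Prime) (hp : 5 ≤ p) :
    (((p - 1) / 2 : ℕ) : ℝ) - 2 * (Rg p).card ≤
      4 + (((p - 1) / 2 : ℕ) : ℝ) * (Real.log (Real.log (2 * p)) / Real.log p) := by
  rw [card_Rg hp]
  set M := (p - 1) / 2 with hM
  set r := (reg p 1 0).card with hr
  have h0 := classes hpp (by omega) 1 M (one_dvd _) (by omega)
  simp only [range_one, sum_singleton, if_true, mul_one] at h0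
  rw [← hr] at h0
  have hpr : (5 : ℝ) ≤ p := by exact_mod_cast hp
  have hppos : (0 : ℝ) < p := by linarith
  have hM1 : 1 ≤ M := by omega
  have hMr : (1 : ℝ) ≤ M := by exact_mod_cast hM1
  have h2M : 2 * (M : ℝ) ≤ p := by
    have : 2 * M ≤ p := by omega
    exact_mod_cast this
  have hlp1 : 1 < Real.log p := by
    have h1 : Real.exp 1 < 5 := by
      have := Real.exp_one_lt_d9
      linarith
    rw [Real.lt_log_iff_exp_lt hppos]
    linarith
  have hl2 : 1 < Real.log (2 * p) := by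
    refine lt_of_lt_of_le hlp1 (Real.log_le_log hppos (by linarith))
  have h1 := Real.log_le_log (by positivity) h0
  rw [Real.log_pow, Real.log_mul (by norm_num) (by positivity), Real.log_pow,
    Real.log_mul (by positivity) (by positivity)] at h1
  have h2 : Real.log (2 * (M : ℝ)) ≤ Real.log p := Real.log_le_log (by positivity) h2M
  have h3 : Real.log 4 ≤ 2 := by
    have h4 : (4 : ℝ) ≤ Real.exp 2 := by
      have h5 := Real.exp_one_gt_d9
      have h6 : Real.exp 2 = Real.exp 1 * Real.exp 1 := by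
        rw [← Real.exp_add]
        norm_num
      rw [h6]
      nlinarith
    rw [Real.log_le_iff_le_exp (by norm_num)]
    exact h4
  have h4 : ((M : ℝ) - r - 1) ≤ ((M - (r + 1) : ℕ) : ℝ) := by
    have : (M : ℝ) ≤ ((M - (r + 1) : ℕ) : ℝ) + (r + 1) := by
      have h5 : M ≤ (M - (r + 1)) + (r + 1) := by omega
      exact_mod_cast h5
    linarith
  push_cast at h1
  have h5 : 2 * ((M : ℝ) - r - 1) * Real.log p ≤
      2 + M * (Real.log p + Real.log (Real.log (2 * p))) := by
    have h6 : 2 * ((M : ℝ) - r - 1) * Real.log p ≤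
        2 * ((M - (r + 1) : ℕ) : ℝ) * Real.log p := by nlinarith
    have h7 : (M : ℝ) * (Real.log (2 * M) + Real.log (Real.log (2 * p))) ≤
        M * (Real.log p + Real.log (Real.log (2 * p))) := by
      apply mul_le_mul_of_nonneg_left _ (by linarith)
      linarith
    linarith
  have h6 : (M : ℝ) * (Real.log (Real.log (2 * p)) / Real.log p) * Real.log p =
      M * Real.log (Real.log (2 * p)) := by
    field_simp
  by_contra hcon
  push Not at hcon
  have h7 : (4 + (M : ℝ) * (Real.log (Real.log (2 * p)) / Real.log p)) * Real.log p <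
      ((M : ℝ) - 2 * r) * Real.log p := by
    apply mul_lt_mul_of_pos_right hcon
    linarith
  nlinarith

end Pool.Agent.H7SR
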