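import Mathlib
import Pool.Agent.H7SR.NT

/-!
# Sums of two and three regular indices modulo `(p - 1) / 2`
-/

set_option autoImplicit false

open Finset Pool.Agent.N840.RC Pointwise

namespace Pool.Agent.H7SR

theorem ev_log (C r : ℝ) (hr : 0 < r) : ∀ᶠ p : ℕ in Filter.atTop, C * Real.log p ≤ (p : ℝ) ^ r := by
  have h1 := (isLittleO_log_rpow_atTop hr).bound (c := 1 / (|C| + 1)) (by positivity)
  have h2 := tendsto_natCast_atTop_atTop (R := ℝ) |>.eventually h1
  filter_upwards [h2, Filter.eventually_ge_atTop 1] with p hp hp1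
  have hpr : (1 : ℝ) ≤ p := by exact_mod_cast hp1
  have hl : 0 ≤ Real.log p := Real.log_nonneg hpr
  have hrp : 0 ≤ (p : ℝ) ^ r := Real.rpow_nonneg (by linarith) _
  rw [Real.norm_of_nonneg hl, Real.norm_of_nonneg hrp] at hp
  have h3 : 0 < |C| + 1 := by positivity
  have h4 : Real.log p * (|C| + 1) ≤ (p : ℝ) ^ r := by
    have h5 : Real.log p ≤ (p : ℝ) ^ r / (|C| + 1) := by
      rw [div_eq_inv_mul, ← one_div]
      exact hp
    rwa [le_div_iff₀ h3] at h5
  have h6 : C * Real.log p ≤ (|C| + 1) * Real.log p := by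
    apply mul_le_mul_of_nonneg_right _ hl
    linarith [le_abs_self C]
  linarith

theorem ev_main {ε : ℝ} (hε : 0 < ε) (hε1 : ε ≤ 1) : ∀ᶠ p : ℕ in Filter.atTop,
    4 + (((p - 1) / 2 : ℕ) : ℝ) * (Real.log (Real.log (2 * p)) / Real.log p) +
      2 * (p : ℝ) ^ (1 - ε) + (((p - 1) / 2 : ℕ) : ℝ) / ((p : ℝ) ^ (1 - ε / 2) / (4 / ε + 1)) ≤
      (1 + ε) * (((p - 1) / 2 : ℕ) : ℝ) * (Real.log (Real.log p) / Real.log p) := by
  have hlog : Filter.Tendsto (fun p : ℕ => Real.log (p : ℝ)) Filter.atTop Filter.atTop :=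
    Real.tendsto_log_atTop.comp tendsto_natCast_atTop_atTop
  have hloglog : Filter.Tendsto (fun p : ℕ => Real.log (Real.log (p : ℝ))) Filter.atTop
      Filter.atTop := Real.tendsto_log_atTop.comp hlog
  filter_upwards [hlog.eventually_ge_atTop (4 / ε), hloglog.eventually_ge_atTop 1,
    ev_log (48 / ε) 1 one_pos, ev_log (24 / ε) ε hε,
    ev_log (12 / ε * (4 / ε + 1)) (1 / 2) (by norm_num), Filter.eventually_ge_atTop 7]
    with p h1 h2 h3 h4 h5 h7
  have hpr : (7 : ℝ) ≤ p := by exact_mod_cast h7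
  have hppos : (0 : ℝ) < p := by linarith
  set M : ℝ := (((p - 1) / 2 : ℕ) : ℝ) with hM
  have hM1 : (p : ℝ) ≤ 3 * M := by
    have : p ≤ 3 * ((p - 1) / 2) := by omega
    rw [hM]
    exact_mod_cast this
  have hM2 : M ≤ p := by
    have : (p - 1) / 2 ≤ p := by omega
    rw [hM]
    exact_mod_cast this
  have hMpos : 0 < M := by linarith
  set L := Real.log (p : ℝ) with hL
  have h4e : 4 ≤ 4 / ε := by
    rw [le_div_iff₀ hε]
    linarith
  have hLpos : 0 < L := by linarith
  set l2 := Real.log L with hl2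
  have ha : Real.log (Real.log (2 * p)) ≤ l2 + 1 / L := by
    have e1 : Real.log (2 * p) = L * (1 + Real.log 2 / L) := by
      rw [Real.log_mul (by norm_num) hppos.ne', ← hL]
      field_simp
      ring
    have e2 : 0 < Real.log 2 / L := div_pos (Real.log_pos (by norm_num)) hLpos
    rw [e1, Real.log_mul hLpos.ne' (by linarith), ← hl2]
    have e3 := Real.log_le_sub_one_of_pos (show 0 < 1 + Real.log 2 / L by linarith)
    have e4 : Real.log 2 / L ≤ 1 / L := by
      apply div_le_div_of_nonneg_right _ hLpos.le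
      linarith [Real.log_two_lt_d9]
    linarith
  have hK : 1 / L ≤ ε / 4 := by
    rw [div_le_div_iff₀ hLpos (by norm_num)]
    have := (div_le_iff₀ hε).1 h1
    linarith
  -- all in multiples of M / L
  have b1 : M * (Real.log (Real.log (2 * p)) / L) ≤ M / L * (l2 + ε / 4 * l2) := by
    have e1 : M * (Real.log (Real.log (2 * p)) / L) = M / L * Real.log (Real.log (2 * p)) := by
      ring
    rw [e1]
    apply mul_le_mul_of_nonneg_left _ (by positivity)
    nlinarith
  have b2 : 4 ≤ M / L * (ε / 4 * l2) := by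
    rw [Real.rpow_one] at h3
    have e1 : 48 / ε * L ≤ 3 * M := by linarith
    have e2 : 16 * L ≤ M * ε := by
      rw [div_mul_eq_mul_div, div_le_iff₀ hε] at e1
      linarith
    have e3 : 16 ≤ M / L * ε := by
      rw [div_mul_eq_mul_div, le_div_iff₀ hLpos]
      exact e2
    nlinarith
  have b3 : 2 * (p : ℝ) ^ (1 - ε) ≤ M / L * (ε / 4 * l2) := by
    have e1 : (p : ℝ) ^ (1 - ε) * (p : ℝ) ^ ε = p := by
      rw [← Real.rpow_add hppos, sub_add_cancel, Real.rpow_one]
    have e2 : (p : ℝ) ^ (1 - ε) * (24 / ε * L) ≤ p :=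
      le_trans (mul_le_mul_of_nonneg_left h4 (Real.rpow_nonneg hppos.le _)) e1.le
    have e3 : 8 * (p : ℝ) ^ (1 - ε) * L ≤ M * ε := by
      have e4 : (p : ℝ) ^ (1 - ε) * (24 / ε * L) = 24 * (p : ℝ) ^ (1 - ε) * L / ε := by
        field_simp
      rw [e4, div_le_iff₀ hε] at e2
      nlinarith
    have e5 : 8 * (p : ℝ) ^ (1 - ε) ≤ M / L * ε := by
      rw [div_mul_eq_mul_div, le_div_iff₀ hLpos]
      exact e3
    have e6 : 0 ≤ M / L * ε := by positivity
    nlinarith
  have b4 : M / ((p : ℝ) ^ (1 - ε / 2) / (4 / ε + 1)) ≤ M / L * (ε / 4 * l2) := by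
    have e0 : (p : ℝ) ^ (1 / 2 : ℝ) ≤ (p : ℝ) ^ (1 - ε / 2) :=
      Real.rpow_le_rpow_of_exponent_le (by linarith) (by linarith)
    have e1 : 12 / ε * (4 / ε + 1) * L ≤ (p : ℝ) ^ (1 - ε / 2) := le_trans h5 e0
    have hd : 0 < 4 / ε + 1 := by linarith
    have hq : 0 < (p : ℝ) ^ (1 - ε / 2) := Real.rpow_pos_of_pos hppos _
    have e2 : 12 / ε * L ≤ (p : ℝ) ^ (1 - ε / 2) / (4 / ε + 1) := by
      rw [le_div_iff₀ hd]
      linarith
    have e3 : M / ((p : ℝ) ^ (1 - ε / 2) / (4 / ε + 1)) ≤ M / (12 / ε * L) :=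
      div_le_div_of_nonneg_left hMpos.le (by positivity) e2
    have e4 : M / (12 / ε * L) = M / L * (ε / 12) := by
      field_simp
    rw [e4] at e3
    refine le_trans e3 ?_
    apply mul_le_mul_of_nonneg_left _ (by positivity)
    nlinarith
  have e : (1 + ε) * M * (l2 / L) = M / L * (l2 + ε / 4 * l2) + M / L * (ε / 4 * l2) +
      M / L * (ε / 4 * l2) + M / L * (ε / 4 * l2) := by ring
  rw [e]
  linarith

theorem ev_small {ε : ℝ} (hε : 0 < ε) : ∀ᶠ p : ℕ in Filter.atTop,
    (1 + ε) * (Real.log (Real.log p) / Real.log p) ≤ 1 / 4 ∧ 0 ≤ Real.log (Real.log p) / Real.log p := by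
  have hlog : Filter.Tendsto (fun p : ℕ => Real.log (p : ℝ)) Filter.atTop Filter.atTop :=
    Real.tendsto_log_atTop.comp tendsto_natCast_atTop_atTop
  have h1 := (isLittleO_log_rpow_atTop one_pos).bound (c := 1 / (4 * (1 + ε))) (by positivity)
  have h2 := hlog.eventually h1
  filter_upwards [h2, hlog.eventually_ge_atTop 1] with p hp hp1
  have hl : 0 ≤ Real.log (Real.log (p : ℝ)) := Real.log_nonneg hp1
  have hLpos : 0 < Real.log (p : ℝ) := by linarith
  rw [Real.rpow_one, Real.norm_of_nonneg hl, Real.norm_of_nonneg hLpos.le] at hp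
  refine ⟨?_, by positivity⟩
  have h3 : 0 < 4 * (1 + ε) := by positivity
  rw [← mul_div_assoc, div_le_iff₀ hLpos]
  rw [div_mul_eq_mul_div, one_mul, le_div_iff₀ h3] at hp
  linarith

theorem pigeon {M : ℕ} [NeZero M] (S T : Finset (ZMod M)) (h : M < S.card + T.card) (x : ZMod M) :
    ∃ s ∈ S, ∃ t ∈ T, s + t = x := by
  classical
  by_contra hcon
  push Not at hcon
  have h1 : Disjoint S (T.image (fun t => x - t)) := by
    rw [Finset.disjoint_left]
    intro s hs hs2
    obtain ⟨t, ht, hte⟩ := mem_image.1 hs2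
    exact hcon s hs t ht (by rw [← hte]; ring)
  have h2 : (T.image (fun t => x - t)).card = T.card :=
    card_image_of_injective _ (fun a b hab => by simpa using hab)
  have h3 := card_le_univ (S ∪ T.image (fun t => x - t))
  rw [card_union_of_disjoint h1, h2, ZMod.card] at h3
  omega

/-- the main theorem in terms of sets of classes -/
theorem core {ε : ℝ} (hε : 0 < ε) (hε1 : ε ≤ 1) : ∃ P : ℕ, 7 ≤ P ∧ ∀ p : ℕ, P ≤ p → p.Prime →
    ∀ E : Finset (ZMod ((p - 1) / 2)), (E.card : ℝ) ≤ (p : ℝ) ^ (1 - ε) →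
      (∀ B : Finset (ZMod ((p - 1) / 2)), B = Rg p \ E ∨ B = -(Rg p \ E) →
        (((p - 1) / 2 : ℕ) : ℝ) - ((Rg p \ E) + B).card ≤
        (1 + ε) * (((p - 1) / 2 : ℕ) : ℝ) * (Real.log (Real.log p) / Real.log p)) ∧
      (1 + ε) * (((p - 1) / 2 : ℕ) : ℝ) * (Real.log (Real.log p) / Real.log p) <
        (Rg p \ E).card := by
  obtain ⟨P0, hP0⟩ := many hε hε1
  obtain ⟨P1, hP1⟩ := Filter.eventually_atTop.1 (ev_main hε hε1)
  obtain ⟨P2, hP2⟩ := Filter.eventually_atTop.1 (ev_small hε)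
  refine ⟨max (max P0 P1) (max P2 7), le_trans (le_max_right _ _) (le_max_right _ _), ?_⟩
  intro p hp hpp E hE
  have hp0 : P0 ≤ p := le_trans (le_trans (le_max_left _ _) (le_max_left _ _)) hp
  have hp1 : P1 ≤ p := le_trans (le_trans (le_max_right _ _) (le_max_left _ _)) hp
  have hp2 : P2 ≤ p := le_trans (le_trans (le_max_left _ _) (le_max_right _ _)) hp
  have hp7 : 7 ≤ p := le_trans (le_trans (le_max_right _ _) (le_max_right _ _)) hp
  have : NeZero ((p - 1) / 2) := ⟨by omega⟩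
  have hpr : (7 : ℝ) ≤ p := by exact_mod_cast hp7
  have hppos : (0 : ℝ) < p := by linarith
  have hA := hP0 p hp0 hpp E hE
  have hB := hP1 p hp1
  obtain ⟨hC, hC0⟩ := hP2 p hp2
  have hT := total hpp (by omega)
  set M : ℝ := (((p - 1) / 2 : ℕ) : ℝ) with hM
  have hMpos : 0 < M := by
    have : 1 ≤ (p - 1) / 2 := by omega
    have h2 : (1 : ℝ) ≤ M := by
      rw [hM]
      exact_mod_cast this
    linarith
  set lam := Real.log (Real.log p) / Real.log p with hlam
  have hd : 0 < 4 / ε + 1 := by positivity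
  have hX : 0 < (p : ℝ) ^ (1 - ε / 2) / (4 / ε + 1) := by positivity
  have hcard : ((Rg p).card : ℝ) ≤ (Rg p \ E).card + E.card := by
    have : (Rg p).card ≤ (Rg p \ E).card + E.card := by
      have h1 := card_le_card (show Rg p ⊆ (Rg p \ E) ∪ E by
        intro x hx
        rw [mem_union, mem_sdiff]
        by_cases h : x ∈ E
        · exact Or.inr h
        · exact Or.inl ⟨hx, h⟩)
      exact h1.trans (card_union_le _ _)
    exact_mod_cast this
  have hq : 0 ≤ M / ((p : ℝ) ^ (1 - ε / 2) / (4 / ε + 1)) := by positivity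
  have hkey : M - 2 * (Rg p \ E).card + M / ((p : ℝ) ^ (1 - ε / 2) / (4 / ε + 1)) ≤
      (1 + ε) * M * lam := by
    linarith
  have hsm : (1 + ε) * M * lam ≤ M / 4 := by
    have : (1 + ε) * M * lam = M * ((1 + ε) * lam) := by ring
    rw [this]
    nlinarith
  have hbig : (1 + ε) * M * lam < (Rg p \ E).card := by linarith
  have hnn : 0 ≤ (1 + ε) * M * lam := by positivity
  refine ⟨?_, hbig⟩
  intro B hBB
  have hne : (Rg p \ E).Nonempty := by
    rw [← card_pos]
    have : (0 : ℝ) < (Rg p \ E).card := lt_of_le_of_lt hnn hbig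
    exact_mod_cast this
  rcases sums hne hBB _ hX hA with h1 | h1
  · rw [h1]
    rw [hM] at hnn ⊢
    linarith
  · linarith

end Pool.Agent.H7SR
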