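import Mathlib
import Pool.Agent.H7SR.Main

/-!
# Sums of regular indices modulo `(p - 1) / 2`, in terms of congruences
-/

set_option autoImplicit false

open Finset Pool.Agent.N840.RC Pointwise

namespace Pool.Agent.H7SR

/-- `i` is a regular index of `p` outside `E` -/
def RI (p : ℕ) (E : Finset ℕ) (i : ℕ) : Prop :=
  (1 ≤ i ∧ 2 * i + 3 ≤ p ∧ ¬ (p : ℤ) ∣ (bernoulli (2 * i)).num) ∧ i ∉ E

/-- the classes of `E` -/
noncomputable def cl (p : ℕ) (E : Finset ℕ) : Finset (ZMod ((p - 1) / 2)) :=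
  E.image (fun i : ℕ => (i : ZMod ((p - 1) / 2)))

theorem exists_index {p : ℕ} (hp : 7 ≤ p) {E : Finset ℕ} {a : ZMod ((p - 1) / 2)}
    (ha : a ∈ Rg p \ cl p E) : ∃ i, RI p E i ∧ (i : ZMod ((p - 1) / 2)) = a := by
  obtain ⟨h1, h2⟩ := mem_sdiff.1 ha
  obtain ⟨i, hi, rfl⟩ := mem_image.1 h1
  obtain ⟨⟨h3, h4⟩, -, h5⟩ := mem_reg.1 hi
  refine ⟨i, ⟨⟨h3, by omega, h5⟩, ?_⟩, rfl⟩
  intro hE
  exact h2 (mem_image.2 ⟨i, hE, rfl⟩)

theorem card_bad {M : ℕ} [NeZero M] (C : Finset (ZMod M)) (P : ℕ → Prop) [DecidablePred P]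
    (h : ∀ k : ℕ, k < M → (k : ZMod M) ∈ C → ¬ P k) :
    (((range M).filter P).card : ℝ) ≤ (M : ℝ) - C.card := by
  have h1 : ((range M).filter P).card ≤ (univ \ C).card := by
    apply card_le_card_of_injOn (fun k : ℕ => (k : ZMod M))
    · intro k hk
      rw [mem_coe, mem_filter, mem_range] at hk
      rw [mem_coe, mem_sdiff]
      exact ⟨mem_univ _, fun hC => h k hk.1 hC hk.2⟩
    · intro k hk l hl he
      rw [mem_coe, mem_filter, mem_range] at hk hl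
      have h2 := congrArg ZMod.val he
      simp only at h2
      rwa [ZMod.val_cast_of_lt hk.1, ZMod.val_cast_of_lt hl.1] at h2
  have h2 : (univ \ C).card + C.card = M := by
    rw [card_sdiff_of_subset (subset_univ _)]
    have h3 := card_le_univ C
    rw [card_univ, ZMod.card]
    rw [ZMod.card] at h3
    omega
  have h3 : (((range M).filter P).card : ℝ) ≤ (univ \ C).card := by exact_mod_cast h1
  have h4 : ((univ \ C).card : ℝ) + C.card = M := by exact_mod_cast h2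
  linarith

open Classical in
theorem card_bad' {M : ℕ} [NeZero M] (C : Finset (ZMod M)) (P : ℕ → Prop)
    (h : ∀ k : ℕ, k < M → (k : ZMod M) ∈ C → ¬ P k) :
    (Nat.card {k : ℕ | k < M ∧ P k} : ℝ) ≤ (M : ℝ) - C.card := by
  refine le_trans (le_of_eq ?_) (card_bad C P h)
  congr 1
  rw [← Nat.card_eq_finsetCard]
  apply Nat.card_congr
  apply Equiv.setCongr
  ext k
  simp

theorem fin1 {ε : ℝ} (hε : 0 < ε) (hε1 : ε ≤ 1) : ∃ P : ℕ, ∀ p : ℕ, P ≤ p → p.Prime →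
    ∀ E : Finset ℕ, (E.card : ℝ) ≤ (p : ℝ) ^ (1 - ε) →
      (Nat.card {k : ℕ | k < (p - 1) / 2 ∧ ¬ ∃ i j, RI p E i ∧ RI p E j ∧
          i + j ≡ k [MOD (p - 1) / 2]} : ℝ) ≤
        (1 + ε) * (((p - 1) / 2 : ℕ) : ℝ) * (Real.log (Real.log p) / Real.log p) ∧
      (Nat.card {k : ℕ | k < (p - 1) / 2 ∧ ¬ ∃ i j, RI p E i ∧ RI p E j ∧
          i ≡ k + j [MOD (p - 1) / 2]} : ℝ) ≤
        (1 + ε) * (((p - 1) / 2 : ℕ) : ℝ) * (Real.log (Real.log p) / Real.log p) ∧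
      ∀ k : ℕ, (∃ i j l, RI p E i ∧ RI p E j ∧ RI p E l ∧ i + j + l ≡ k [MOD (p - 1) / 2]) ∧
        ∃ i j l, RI p E i ∧ RI p E j ∧ RI p E l ∧ i + j ≡ k + l [MOD (p - 1) / 2] := by
  obtain ⟨P, hP7, hP⟩ := core hε hε1
  refine ⟨P, ?_⟩
  intro p hp hpp E hE
  have hp7 : 7 ≤ p := le_trans hP7 hp
  have : NeZero ((p - 1) / 2) := ⟨by omega⟩
  have hE' : ((cl p E).card : ℝ) ≤ (p : ℝ) ^ (1 - ε) := by
    refine le_trans ?_ hE
    have : (cl p E).card ≤ E.card := card_image_le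
    exact_mod_cast this
  obtain ⟨h1, h2⟩ := hP p hp hpp (cl p E) hE'
  have hs := h1 (Rg p \ cl p E) (Or.inl rfl)
  have hd := h1 (-(Rg p \ cl p E)) (Or.inr rfl)
  have two : ∀ x ∈ (Rg p \ cl p E) + (Rg p \ cl p E), ∃ i j, RI p E i ∧ RI p E j ∧
      ((i + j : ℕ) : ZMod ((p - 1) / 2)) = x := by
    intro x hx
    obtain ⟨a, ha, b, hb, rfl⟩ := mem_add.1 hx
    obtain ⟨i, hi, rfl⟩ := exists_index hp7 ha
    obtain ⟨j, hj, rfl⟩ := exists_index hp7 hb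
    exact ⟨i, j, hi, hj, by push_cast; rfl⟩
  have dif : ∀ x ∈ (Rg p \ cl p E) + -(Rg p \ cl p E), ∃ i j, RI p E i ∧ RI p E j ∧
      ((i : ℕ) : ZMod ((p - 1) / 2)) = x + j := by
    intro x hx
    obtain ⟨a, ha, b, hb, rfl⟩ := mem_add.1 hx
    rw [mem_neg'] at hb
    obtain ⟨i, hi, rfl⟩ := exists_index hp7 ha
    obtain ⟨j, hj, hjb⟩ := exists_index hp7 hb
    refine ⟨i, j, hi, hj, ?_⟩
    rw [hjb]
    ring
  refine ⟨?_, ?_, fun k => ⟨?_, ?_⟩⟩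
  · refine le_trans (card_bad' ((Rg p \ cl p E) + (Rg p \ cl p E)) _ ?_) hs
    intro k _ hk hcon
    obtain ⟨i, j, hi, hj, he⟩ := two _ hk
    exact hcon ⟨i, j, hi, hj, (ZMod.natCast_eq_natCast_iff _ _ _).1 he⟩
  · refine le_trans (card_bad' ((Rg p \ cl p E) + -(Rg p \ cl p E)) _ ?_) hd
    intro k _ hk hcon
    obtain ⟨i, j, hi, hj, he⟩ := dif _ hk
    refine hcon ⟨i, j, hi, hj, (ZMod.natCast_eq_natCast_iff _ _ _).1 ?_⟩
    rw [he]
    push_cast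
    rfl
  · have hlt : (p - 1) / 2 < ((Rg p \ cl p E) + (Rg p \ cl p E)).card + (Rg p \ cl p E).card := by
      have h3 : (((p - 1) / 2 : ℕ) : ℝ) < ((Rg p \ cl p E) + (Rg p \ cl p E)).card +
          (Rg p \ cl p E).card := by linarith
      exact_mod_cast h3
    obtain ⟨s, hs', t, ht, he⟩ := pigeon _ _ hlt (k : ZMod ((p - 1) / 2))
    obtain ⟨i, j, hi, hj, hij⟩ := two _ hs'
    obtain ⟨l, hl, hlt⟩ := exists_index hp7 ht
    refine ⟨i, j, l, hi, hj, hl, (ZMod.natCast_eq_natCast_iff _ _ _).1 ?_⟩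
    rw [← he, ← hij, ← hlt]
    push_cast
    rfl
  · have hlt : (p - 1) / 2 < ((Rg p \ cl p E) + (Rg p \ cl p E)).card +
        (-(Rg p \ cl p E)).card := by
      rw [card_neg]
      have h3 : (((p - 1) / 2 : ℕ) : ℝ) < ((Rg p \ cl p E) + (Rg p \ cl p E)).card +
          (Rg p \ cl p E).card := by linarith
      exact_mod_cast h3
    obtain ⟨s, hs', t, ht, he⟩ := pigeon _ _ hlt (k : ZMod ((p - 1) / 2))
    obtain ⟨i, j, hi, hj, hij⟩ := two _ hs'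
    rw [mem_neg'] at ht
    obtain ⟨l, hl, hlt⟩ := exists_index hp7 ht
    refine ⟨i, j, l, hi, hj, hl, (ZMod.natCast_eq_natCast_iff _ _ _).1 ?_⟩
    rw [hij]
    push_cast
    rw [hlt, ← he]
    ring

end Pool.Agent.H7SR
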